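import Pool.Agent.J6H39.CG.Fin6

/-!
# A smoothed Conrey-Gonek identity for all moments of zeta, and an equivalent form of the moment conjecture

For a test function `V` (smooth, compactly supported) let `D_V(T, t) = ∑_n d_k(n) n^(-1/2-it) V(log n / log T)`, where
`d_k(n)` is the number of factorisations of `n` into `k` factors. If `V` vanishes beyond `x` this is a Dirichlet polynomial
of length `T^x`.

Conrey and Gonek (High moments of the Riemann zeta-function, 2001) start from the heuristic identity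
`∫ |ζ(1/2+it)|^(2k) ≈ ∫ |∑_{n ≤ N}|² + ∫ |∑_{n ≤ M}|²`, `N M = (T/2π)^k`, to derive the constants `42` and `24024`. We
prove a smoothed form of it for every `k ≥ 1`: for all test functions `V, W` with `V(x)² + W(k-x)² = 1` for
`0 ≤ x ≤ k`. As a consequence the `2k`-th moment conjecture (with a given constant `γ`) is equivalent to an asymptotic
formula for the mean squares of `D_V, D_W`; for `V = W` these are Dirichlet polynomials of length `T^(k/2+δ)`, any `δ > 0`.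
No hypothesis and no upper bound for the moments is assumed.
-/

set_option autoImplicit false

open MeasureTheory Filter Topology Complex
open scoped ContDiff

namespace Pool.Agent.Results.MP_80d0cf_nt.ConreyGonekIdentity

/-- `D_V(T, t) = ∑_n d_k(n) n^(-1/2-it) V(log n / log T)` -/
noncomputable def dirichletPoly (k : ℕ) (V : ℝ → ℝ) (T t : ℝ) : ℂ :=
  ∑' n : ℕ, ((((ArithmeticFunction.zeta : ArithmeticFunction ℕ) ^ k) n : ℕ) : ℂ) *
    (n : ℂ) ^ (-(1 / 2 + (t : ℂ) * I)) * (V (Real.log n / Real.log T) : ℂ)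

/-- test functions: smooth with compact support -/
def IsTest (V : ℝ → ℝ) : Prop := ContDiff ℝ ∞ V ∧ HasCompactSupport V

/-- weights: `C^1`, supported in a compact interval of positive numbers -/
def IsWeight (w : ℝ → ℝ) : Prop := ContDiff ℝ 1 w ∧ ∃ a b : ℝ, 0 < a ∧ ∀ x, x ∉ Set.Icc a b → w x = 0

/-- **Smoothed Conrey-Gonek identity, and the equivalent form of the moment conjecture.** -/
theorem result (k : ℕ) (hk : 1 ≤ k) :
    (∀ V W : ℝ → ℝ, IsTest V → IsTest W → (∀ x ∈ Set.Icc (0 : ℝ) k, V x ^ 2 + W (k - x) ^ 2 = 1) →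
      (∃ m₀ : ℕ, ∀ m : ℕ, m₀ ≤ m → ∀ w : ℝ → ℝ, IsWeight w → ∀ ε : ℝ, 0 < ε → ∀ᶠ T : ℝ in atTop,
        |(∫ t : ℝ, ‖riemannZeta (1 / 2 + (t : ℂ) * I)‖ ^ (2 * k) * w (t / T)) -
          ∫ t : ℝ, (‖dirichletPoly k V T t‖ ^ 2 + ‖dirichletPoly k W T t‖ ^ 2) * w (t / T)| ≤
        ε * ((∫ t : ℝ, ‖riemannZeta (1 / 2 + (t : ℂ) * I)‖ ^ (2 * k) / (1 + |t| / T) ^ m) +
          T * Real.log T ^ (k ^ 2))) ∧
      (∀ γ : ℝ,
        Tendsto (fun T : ℝ => (T⁻¹ * ∫ t in (0 : ℝ)..T, ‖riemannZeta (1 / 2 + (t : ℂ) * I)‖ ^ (2 * k)) /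
          Real.log T ^ (k ^ 2)) atTop (𝓝 γ) ↔
        ∀ w : ℝ → ℝ, IsWeight w → Tendsto (fun T : ℝ =>
          (T⁻¹ * ∫ t : ℝ, (‖dirichletPoly k V T t‖ ^ 2 + ‖dirichletPoly k W T t‖ ^ 2) * w (t / T)) /
            Real.log T ^ (k ^ 2)) atTop (𝓝 (γ * ∫ x, w x)))) ∧
    (∀ δ : ℝ, 0 < δ → ∃ V : ℝ → ℝ, IsTest V ∧ (∀ x, (k : ℝ) / 2 + δ ≤ x → V x = 0) ∧
      ∀ x ∈ Set.Icc (0 : ℝ) k, V x ^ 2 + V (k - x) ^ 2 = 1) := by
  refine ⟨fun V W hV hW h => ?_, fun δ hδ => ?_⟩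
  · exact Pool.Agent.J6H39.CG.final hk ⟨hV.1, hV.2⟩ ⟨hW.1, hW.2⟩ (fun x h0 h1 => h x ⟨h0, h1⟩)
  · exact ⟨Pool.Agent.J6H39.CG.hc k δ, ⟨(Pool.Agent.J6H39.CG.hc_tst k hδ).smooth, (Pool.Agent.J6H39.CG.hc_tst k hδ).cpt⟩,
      fun x hx => Pool.Agent.J6H39.CG.hc_zero k hδ hx, fun x hx => Pool.Agent.J6H39.CG.hc_sq k hδ hx.1 hx.2⟩

end Pool.Agent.Results.MP_80d0cf_nt.ConreyGonekIdentity
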