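import Pool.Agent.J6H1.ZMG.SXFin

/-!
# The fourth moment of zeta times any number of shifted squares, for almost all shifts: the asymptotics

For an integer `n ≥ 0` and real shifts `c_1, …, c_n` put
`M_T(c) = ∫_0^T |ζ(1/2+it)|⁴ ∏_{j ≤ n} |ζ(1/2+i(t+c_j))|² dt`;
this is a moment of order `2k` with `k = n + 2` (sixth moment for `n = 1`, eighth moment for `n = 2`), in
which two of the `k` factors are not shifted.  We prove the leading asymptotics of `M_T(c)` for almost all `c`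
in the box `[0, T]^n`, for EVERY `n`:

* with the local densities `δ_p(c) = (1 - 1/p)^(n+4) ∫_0^1 |1 - e(θ) p^(-1/2)|⁻⁴ ∏_j |1 - e(θ) p^(-1/2 - i c_j)|⁻² dθ`,
  the mean over `c ∈ [0,T]^n` of `|M_T(c) / (T (log T)^(n+4)) - (1/12) ∏_{p ≤ log T} δ_p(c)|` tends to `0`;
* `M_T(c) ∼ (1/12) A(c) Z(c) T (log T)^(n+4)` for all `c ∈ [0,T]^n` outside a set of measure `o(T^n)`, where
  `Z(c) = ∏_j |ζ(1+i c_j)|⁴ ∏_{i<j} |ζ(1+i(c_i-c_j))|²` and `A(c)` is the (absolutely convergent) product of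
  the local densities divided by the Euler factors of `Z`.

This finishes the project SX (`Pool.Agent.Y969.SM`) of the starting files.
-/

set_option autoImplicit false

open Filter Topology MeasureTheory Complex

namespace Pool.Agent.Results.MP_80d0cf_nt.GenericShiftsAsymptotics

noncomputable section

/-- the moment `∫_0^T |ζ(1/2+it)|⁴ ∏_j |ζ(1/2+i(t+c_j))|² dt` -/
def moment {n : ℕ} (T : ℝ) (c : Fin n → ℝ) : ℝ :=
  ∫ t in (0:ℝ)..T, ‖riemannZeta (1 / 2 + I * t)‖ ^ 4 * ∏ j, ‖riemannZeta (1 / 2 + I * (t + c j))‖ ^ 2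

/-- the local density at `p` -/
def density {n : ℕ} (c : Fin n → ℝ) (p : ℕ) : ℝ :=
  (1 - 1 / (p : ℝ)) ^ (n + 4) * ∫ θ in (0:ℝ)..1,
    1 / (‖1 - cexp (2 * Real.pi * I * θ) * (p : ℂ) ^ (-(1 / 2) : ℂ)‖ ^ 4 *
      ∏ j, ‖1 - cexp (2 * Real.pi * I * θ) * (p : ℂ) ^ (-(1 / 2 + I * c j))‖ ^ 2)

/-- the values of zeta on the line one in the main term -/
def zetaProduct {n : ℕ} (c : Fin n → ℝ) : ℝ :=
  (∏ j, ‖riemannZeta (1 + I * c j)‖ ^ 4) *
    ∏ i, ∏ j ∈ Finset.Ioi i, ‖riemannZeta (1 + I * (c i - c j))‖ ^ 2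

/-- the inverse of the Euler factor at `p` of `zetaProduct` -/
def eulerInverse {n : ℕ} (c : Fin n → ℝ) (p : ℕ) : ℝ :=
  (∏ j, ‖1 - (p : ℂ) ^ (-(1 + I * c j))‖ ^ 4) *
    ∏ i, ∏ j ∈ Finset.Ioi i, ‖1 - (p : ℂ) ^ (-(1 + I * (c i - c j)))‖ ^ 2

/-- the arithmetic factor -/
def arith {n : ℕ} (c : Fin n → ℝ) : ℝ := ∏' p : Nat.Primes, density c p * eulerInverse c p

/-- the product of the local densities over the primes `p ≤ y` -/
def densityProduct {n : ℕ} (y : ℝ) (c : Fin n → ℝ) : ℝ :=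
  ∏ p ∈ (Finset.range (⌊y⌋₊ + 1)).filter Nat.Prime, density c p

/-- For every `n`, the leading asymptotics of the fourth moment of zeta times `n` shifted squares, for almost
all shifts in `[0, T]^n`: in mean, and pointwise outside an exceptional set of measure `o(T^n)`. -/
theorem result (n : ℕ) :
    (∃ C : ℝ, ∀ c : Fin n → ℝ, ∀ p : ℕ, p.Prime → |density c p * eulerInverse c p - 1| ≤ C / (p:ℝ) ^ 2) ∧
    ∀ ε : ℝ, 0 < ε → ∃ T₀ : ℝ, ∀ T : ℝ, T₀ ≤ T →
      IntegrableOn (fun c : Fin n → ℝ =>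
          |moment T c / (T * Real.log T ^ (n + 4)) - 1 / 12 * densityProduct (Real.log T) c|)
        {c | ∀ j, c j ∈ Set.Icc 0 T} ∧
      ∫ c in {c : Fin n → ℝ | ∀ j, c j ∈ Set.Icc 0 T},
          |moment T c / (T * Real.log T ^ (n + 4)) - 1 / 12 * densityProduct (Real.log T) c| ≤ ε * T ^ n ∧
      volume {c : Fin n → ℝ | (∀ j, c j ∈ Set.Icc 0 T) ∧
          ¬ |moment T c / (1 / 12 * arith c * zetaProduct c * (T * Real.log T ^ (n + 4))) - 1| ≤ ε} ≤
        ENNReal.ofReal (ε * T ^ n) :=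
  Pool.Agent.Y969.SM.res_gen Pool.Agent.J6H1.ZMG.sx_main Pool.Agent.J6H1.ZMG.sx_REL
    Pool.Agent.J6H1.ZMG.sx_AA n

end

end Pool.Agent.Results.MP_80d0cf_nt.GenericShiftsAsymptotics
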