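import Pool.Agent.J6H72.ZM.GFFin

set_option autoImplicit false

/-!
# MP_80d0cf_nt: sixth and eighth moments with half of the shifts fixed

The sixth moment (`k = 3`) and the eighth moment (`k = 4`) of zeta are the cases `α = β = 0` of
`∫_0^S ∏_{j ≤ k} ζ(1/2 + i(t + α_j)) ζ(1/2 - i(t + β_j)) dt`. We prove, unconditionally, an asymptotic
formula with a power saving for `k ≤ 4` when `α` is any fixed vector, for instance `α = 0`, and `β` is
outside a small subset of the cube `[0, T]^k`: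
for `α = 0`, `∫_0^S ζ(1/2 + it)^k ∏_j ζ(1/2 - i(t + β_j)) dt = S A_k(0, β) ∏_j ζ(1 - i β_j)^k + O(T^(1-δ))`,
the diagonal term of the conjecture of Conrey, Farmer, Keating, Rubinstein and Snaith (the other terms
of the conjecture are smaller than the error for these shifts).
-/

namespace Pool.Agent.Results.MP_80d0cf_nt.HalfOfTheShiftsFixed

open Complex MeasureTheory

noncomputable section

variable {k : ℕ}

/-- The shifted divisor function `∑_{n_1 ⋯ n_k = n} n_1 ^ l_1 ⋯ n_k ^ l_k`. -/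
def tau (l : Fin k → ℂ) (n : ℕ) : ℂ := ∑ f ∈ Nat.finMulAntidiag k n, ∏ j, (f j : ℂ) ^ l j

/-- The local factor at `p` of the arithmetic factor: the Euler factor at `p` of the series
`∑_n τ_{-iα}(n) τ_{iβ}(n) / n`, divided by the one of `∏_{j, l} ζ(1 + i α_j - i β_l)`. -/
def localFactor (a b : Fin k → ℂ) (p : ℕ) : ℂ :=
  (∏ j, ∏ l, (1 - (p : ℂ) ^ (-(1 + I * a j - I * b l)))) *
    ∑' m : ℕ, tau (fun j => I * b j) (p ^ m) * tau (fun j => -(I * a j)) (p ^ m) * ((p : ℂ) ^ m)⁻¹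

/-- The diagonal term `A_k(α, β) ∏_{j, l} ζ(1 + i α_j - i β_l)`. -/
def diagonal (a b : Fin k → ℝ) : ℂ :=
  (∏' p : Nat.Primes, localFactor (fun j => (a j : ℂ)) (fun j => (b j : ℂ)) p) *
    ∏ j, ∏ l, riemannZeta (1 + I * a j - I * b l)

/-- **Moments of order `2k ≤ 8` with `k` fixed shifts.** For every `k ≤ 4` there is `δ > 0` such that for
every fixed `α` and all `0 ≤ S ≤ T`, `T` sufficiently large in terms of `α`, the shift vectors `β` in
`[0, T]^k` with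
`|∫_0^S ∏_j ζ(1/2 + i(t + α_j)) ζ(1/2 - i(t + β_j)) dt - S A_k(α, β) ∏_{j, l} ζ(1 + i α_j - i β_l)| > T^(1 - δ)`
form a set of measure at most `T^(k - δ)`. -/
theorem result (k : ℕ) (hk : k ≤ 4) : ∃ δ : ℝ, 0 < δ ∧ ∀ α : Fin k → ℝ, ∃ T₀ : ℝ,
    ∀ T S : ℝ, T₀ ≤ T → 0 ≤ S → S ≤ T →
    volume {β : Fin k → ℝ | (∀ i, 0 ≤ β i ∧ β i ≤ T) ∧
      T ^ (1 - δ) < ‖(∫ t in (0:ℝ)..S, ∏ j, riemannZeta (1 / 2 + I * (t + α j)) *
        riemannZeta (1 / 2 - I * (t + β j))) - S * diagonal α β‖} ≤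
    ENNReal.ofReal (T ^ (k - δ)) := by
  obtain ⟨δ, hδ, h⟩ := Pool.Agent.J6H72.ZM.f_main k hk
  refine ⟨δ, hδ, fun α => ?_⟩
  obtain ⟨T₀, h⟩ := h α
  refine ⟨T₀, fun T S hT hS hST => ?_⟩
  rw [Pool.Agent.TH612.GS.vol_cube fun β hβ => hβ.1]
  exact h T hT S hS hST

end

end Pool.Agent.Results.MP_80d0cf_nt.HalfOfTheShiftsFixed
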