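import Pool.Agent.J6H39.ZO.Fin

/-!
# Moments of zeta with shifts at the scale `1/log T`: boundedness and convergence are all-or-nothing

`shifted k (α, β) T` is the moment `∫_0^T ∏_j ζ(1/2+it+α_j/log T) ζ(1/2-it+β_j/log T) dt`, divided by `T (log T)^(k²)`. For zero
shifts it is `m_{2k}(T)/(log T)^(k²)`, the quotient in the moment conjecture. We prove, for every `k ≥ 1`, unconditionally and for
every complex linear family `A : ℂ^n → ℂ^k × ℂ^k` of shifts: either the sharp upper bound `m_{2k}(T) = O((log T)^(k²))` holds, or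
the shifts in the family for which the shifted moment is bounded are zeros of an entire function `G` with `G(0) = 1`; and either
the shifted moments converge at all shifts of the family, to an entire function, or the shifts for which they converge are zeros
of a non-zero entire function. For real shifts this gives a zero-one law.
-/

set_option autoImplicit false

open MeasureTheory Filter Topology Complex

namespace Pool.Agent.Results.MP_80d0cf_nt.ZeroOneLawShifts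

/-- pairs of shift vectors `(α, β)` -/
abbrev Shifts (k : ℕ) : Type := (Fin k → ℂ) × (Fin k → ℂ)

/-- the normalised shifted moment: shifts `α_j / log T` in the factors `ζ(1/2+it+·)`, `β_j / log T` in `ζ(1/2-it+·)` -/
noncomputable def shifted (k : ℕ) (p : Shifts k) (T : ℝ) : ℂ :=
  (∫ t in (0:ℝ)..T, ∏ j, (riemannZeta (1 / 2 + (t : ℂ) * I + p.1 j / (Real.log T : ℂ)) *
    riemannZeta (1 / 2 - (t : ℂ) * I + p.2 j / (Real.log T : ℂ)))) / ((T * Real.log T ^ (k ^ 2) : ℝ) : ℂ)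

/-- the moment `m_{2k}(T)` -/
noncomputable def moment (k : ℕ) (T : ℝ) : ℝ :=
  T⁻¹ * ∫ t in (0:ℝ)..T, ‖riemannZeta (1 / 2 + (t : ℂ) * I)‖ ^ (2 * k)

/-- the shifted moment has a limit -/
def Converges (k : ℕ) (p : Shifts k) : Prop := ∃ c : ℂ, Tendsto (shifted k p) atTop (𝓝 c)

/-- the shifted moment is bounded for large `T` -/
def Bounded (k : ℕ) (p : Shifts k) : Prop := ∃ B T₀ : ℝ, ∀ T : ℝ, T₀ ≤ T → ‖shifted k p T‖ ≤ B

/-- real shifts: the factors are `ζ(1/2+i(t+x_j/log T))` and `ζ(1/2-i(t+y_j/log T))` -/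
noncomputable def realShift (k : ℕ) (x : (Fin k → ℝ) × (Fin k → ℝ)) : Shifts k :=
  (fun j => I * (x.1 j : ℂ), fun j => -(I * (x.2 j : ℂ)))

open Pool.Agent.J6H39.ZO Pool.Agent.J6H39.CG in
/-- **All-or-nothing theorem for shifted moments.** -/
theorem result (k : ℕ) (hk : 1 ≤ k) :
    (∀ T : ℝ, shifted k 0 T = ((moment k T / Real.log T ^ (k ^ 2) : ℝ) : ℂ)) ∧
    (∀ (n : ℕ) (A : (Fin n → ℂ) →ₗ[ℂ] Shifts k),
      (∃ C : ℝ, ∀ T : ℝ, 2 ≤ T → moment k T ≤ C * Real.log T ^ (k ^ 2)) ∨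
      ∃ G : (Fin n → ℂ) → ℂ, Differentiable ℂ G ∧ G 0 = 1 ∧ ∀ z, Bounded k (A z) → G z = 0) ∧
    (∀ (n : ℕ) (A : (Fin n → ℂ) →ₗ[ℂ] Shifts k),
      (∃ Φ : (Fin n → ℂ) → ℂ, Differentiable ℂ Φ ∧ ∀ z, Tendsto (shifted k (A z)) atTop (𝓝 (Φ z))) ∨
      ∃ G : (Fin n → ℂ) → ℂ, Differentiable ℂ G ∧ (∃ z, G z ≠ 0) ∧ ∀ z, Converges k (A z) → G z = 0) ∧
    (∀ (n : ℕ) (A : (Fin n → ℝ) →ₗ[ℝ] (Fin k → ℝ) × (Fin k → ℝ)),
      (∀ x, Converges k (realShift k (A x))) ∨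
      (volume {x | Converges k (realShift k (A x))} = 0 ∧ IsNowhereDense {x | Converges k (realShift k (A x))})) ∧
    (∀ (p : Shifts k) (E : Set ℂ), E.Infinite → Bornology.IsBounded E →
      ((∀ u ∈ E, Bounded k (u • p)) → ∃ C : ℝ, ∀ T : ℝ, 2 ≤ T → moment k T ≤ C * Real.log T ^ (k ^ 2)) ∧
      ((∀ u ∈ E, Converges k (u • p)) →
        ∃ Φ : ℂ → ℂ, Differentiable ℂ Φ ∧ ∀ u : ℂ, Tendsto (shifted k (u • p)) atTop (𝓝 (Φ u)))) := by
  have hmom : ∀ T : ℝ, (∫ t in (0:ℝ)..T, ‖zh t‖ ^ (2 * k)) / (T * Real.log T ^ (k ^ 2)) =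
      moment k T / Real.log T ^ (k ^ 2) := by
    intro T
    have h1 : (∫ t in (0:ℝ)..T, ‖zh t‖ ^ (2 * k)) = ∫ t in (0:ℝ)..T, ‖riemannZeta (1 / 2 + (t : ℂ) * I)‖ ^ (2 * k) := rfl
    rw [h1, moment, div_eq_mul_inv, div_eq_mul_inv, mul_inv]
    ring
  have hub : UBk k → ∃ C : ℝ, ∀ T : ℝ, 2 ≤ T → moment k T ≤ C * Real.log T ^ (k ^ 2) := by
    rintro ⟨C, hC⟩
    refine ⟨C, fun T hT => ?_⟩
    have h1 : 0 < Real.log T := Real.log_pos (by linarith)
    have h2 : 0 < T * Real.log T ^ (k ^ 2) := by positivity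
    have h3 := (div_le_iff₀ h2).2 (hC T hT)
    rw [hmom T, div_le_iff₀ (by positivity)] at h3
    exact h3
  refine ⟨fun T => ?_, fun n A => ?_, fun n A => ?_, fun n A => ?_, fun p E hE hb => ⟨fun h => ?_, fun h => ?_⟩⟩
  · rw [← hmom T]
    exact (t_C k).2 T
  · rcases alt_bdd hU t_A t_C t_SEL hk A with h | h
    · exact Or.inl (hub h)
    · exact Or.inr h
  · exact alt_conv hU t_A t_C t_SEL Pool.Agent.J6H39.CG.t_UB hk A
  · exact alt_real hU t_A t_C t_SEL Pool.Agent.J6H39.CG.t_UB hk A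
  · exact hub (bdd_line hU t_A t_C t_SEL hk p hE hb h)
  · exact alt_line hU t_A t_C t_SEL Pool.Agent.J6H39.CG.t_UB hk p hE hb h

end Pool.Agent.Results.MP_80d0cf_nt.ZeroOneLawShifts
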